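import Pool.Agent.R496.Weight

/-!
# The binary digits of the factors of a composite Fermat number

Let `m ≥ 2` and let `F_m = 2 ^ (2 ^ m) + 1` be a product of at least two integers greater than
one.  Then the product of the numbers of ones in the binary expansions of the factors is at least
`(3 / 4) 2 ^ m + 3`.  So a composite Fermat number cannot be a product of a bounded number of
factors with few binary digits equal to one.

Proof.  Write `F_m = a b`, `a = 1 + 2 ^ n j`, `b = 1 + 2 ^ n l` with odd `j` and `l`.  Expanding `a b - 1`
one gets `s(a) s(b) - 1` powers of two with sum `2 ^ (2 ^ m)`, the least of which is `2 ^ n`.  There must be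
at least `2 ^ m - n + 1` of them, and `n < 2 ^ (m - 2)`.
-/

set_option autoImplicit false

namespace Pool.Agent.Results.MP_37e5fa_nt.BinaryWeight

/-- If `m ≥ 2` and the Fermat number `F_m` is the product of a list of at least two integers greater
than one, then the product of their sums of binary digits is at least `3 * 2 ^ (m - 2) + 3`. -/
theorem result (m : ℕ) (hm : 2 ≤ m) (L : List ℕ) (hL : L.prod = Nat.fermatNumber m)
    (h1 : ∀ a ∈ L, 1 < a) (h2 : 2 ≤ L.length) :
    3 * 2 ^ (m - 2) + 3 ≤ (L.map (fun a => (Nat.digits 2 a).sum)).prod := by
  match L, h2 with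
  | a :: b :: L', _ =>
    have hb : 1 < (b :: L').prod := by
      rw [List.prod_cons]
      have h3 := h1 b (by simp)
      have h4 : 0 < L'.prod := by
        apply List.prod_pos
        intro x hx
        have := h1 x (by simp [hx])
        omega
      nlinarith
    have h5 := Pool.Agent.R496.wt_two m a (b :: L').prod hm (List.prod_cons.symm.trans hL)
      (h1 a (by simp)) hb
    have h6 := Pool.Agent.R496.wt_prod_le (b :: L')
    have h7 : ((a :: b :: L').map (fun a => (Nat.digits 2 a).sum)).prod =
        Pool.Agent.R496.wt a * ((b :: L').map Pool.Agent.R496.wt).prod := by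
      rw [List.map_cons, List.prod_cons]
      rfl
    rw [h7]
    exact h5.trans (Nat.mul_le_mul_left _ h6)

end Pool.Agent.Results.MP_37e5fa_nt.BinaryWeight
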